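import Mathlib

/-!
# Small generating subsets of generating sets of a lattice
-/

set_option autoImplicit false

namespace Pool.Agent.Q162.CE

open Finset
open scoped Classical

theorem chain {G : Type} [AddCommGroup G] (V : Set G) (hV : AddSubgroup.closure V = ⊤) :
    ∀ n : ℕ, ∀ G0 : AddSubgroup G, G0.index ≠ 0 → G0.index ≤ n →
      ∃ T : Finset G, (T : Set G) ⊆ V ∧ T.card ≤ Nat.log 2 G0.index ∧
        G0 ⊔ AddSubgroup.closure (T : Set G) = ⊤ := by
  intro n
  induction n with
  | zero =>
    intro G0 h1 h2
    omega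
  | succ n ih =>
    intro G0 h1 h2
    by_cases htop : G0 = ⊤
    · refine ⟨∅, by simp, by simp, ?_⟩
      rw [htop]
      simp
    · obtain ⟨v, hv, hvG⟩ : ∃ v ∈ V, v ∉ G0 := by
        by_contra hcon
        push Not at hcon
        apply htop
        rw [eq_top_iff, ← hV]
        exact (AddSubgroup.closure_le G0).2 hcon
      obtain ⟨G1, hG1⟩ : ∃ G1, G1 = G0 ⊔ AddSubgroup.closure {v} := ⟨_, rfl⟩
      have hle : G0 ≤ G1 := by rw [hG1]; exact le_sup_left
      have hvG1 : v ∈ G1 := by
        rw [hG1]
        exact AddSubgroup.mem_sup_right (AddSubgroup.subset_closure rfl)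
      have hmul := AddSubgroup.relIndex_mul_index hle
      have hrel1 : G0.relIndex G1 ≠ 1 := by
        intro h
        rw [AddSubgroup.relIndex_eq_one] at h
        exact hvG (h hvG1)
      have hrel0 : G0.relIndex G1 ≠ 0 := by
        intro h
        rw [h, zero_mul] at hmul
        exact h1 hmul.symm
      have hi0 : G1.index ≠ 0 := by
        intro h
        rw [h, mul_zero] at hmul
        exact h1 hmul.symm
      have hrel2 : 2 ≤ G0.relIndex G1 := by omega
      have hi : 2 * G1.index ≤ G0.index := by
        rw [← hmul]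
        exact Nat.mul_le_mul_right _ hrel2
      obtain ⟨T, hT1, hT2, hT3⟩ := ih G1 hi0 (by omega)
      refine ⟨insert v T, ?_, ?_, ?_⟩
      · rw [coe_insert]
        exact Set.insert_subset hv hT1
      · refine (card_insert_le _ _).trans ?_
        have h3 : Nat.log 2 (G1.index * 2) = Nat.log 2 G1.index + 1 :=
          Nat.log_mul_base (by norm_num) hi0
        have h4 : Nat.log 2 (G1.index * 2) ≤ Nat.log 2 G0.index :=
          Nat.log_mono_right (by omega)
        omega
      · rw [eq_top_iff, ← hT3, hG1, coe_insert, Set.insert_eq, AddSubgroup.closure_union,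
          sup_assoc]

theorem det_ne_zero_of_generating {S : Type} [Fintype S] [DecidableEq S] (V : Set (S → ℤ))
    (hV : AddSubgroup.closure V = ⊤) :
    ∃ v : S → (S → ℤ), (∀ s, v s ∈ V) ∧ (Matrix.of v).det ≠ 0 ∧
      LinearIndependent ℤ v := by
  let ι : (S → ℤ) →+ (S → ℚ) :=
    { toFun := fun f s => (f s : ℚ)
      map_zero' := by ext s; simp
      map_add' := fun f g => by ext s; simp }
  have hι : ∀ f s, ι f s = (f s : ℚ) := fun _ _ => rfl
  have hspan : Submodule.span ℚ (ι '' V) = ⊤ := by
    have h1 : ∀ g : S → ℤ, ι g ∈ Submodule.span ℚ (ι '' V) := by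
      intro g
      have hg : g ∈ AddSubgroup.closure V := by
        rw [hV]
        exact AddSubgroup.mem_top g
      induction hg using AddSubgroup.closure_induction with
      | mem x hx => exact Submodule.subset_span ⟨x, hx, rfl⟩
      | zero => rw [map_zero]; exact Submodule.zero_mem _
      | add x y _ _ hx hy => rw [map_add]; exact Submodule.add_mem _ hx hy
      | neg x _ hx => rw [map_neg]; exact Submodule.neg_mem _ hx
    rw [eq_top_iff, ← (Pi.basisFun ℚ S).span_eq, Submodule.span_le]
    rintro _ ⟨s, rfl⟩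
    have h2 := h1 (Pi.single s 1)
    have h3 : ι (Pi.single s 1) = Pi.basisFun ℚ S s := by
      ext t
      rw [hι, Pi.basisFun_apply]
      by_cases h : t = s
      · subst h; simp
      · simp [Pi.single_eq_of_ne h]
    rw [← h3]
    exact h2
  obtain ⟨b, hb, hbs, hli⟩ := exists_linearIndependent ℚ (ι '' V)
  have hbtop : ⊤ ≤ Submodule.span ℚ (Set.range (Subtype.val : b → (S → ℚ))) := by
    rw [Subtype.range_coe, hbs, hspan]
  let B : Module.Basis b ℚ (S → ℚ) := Module.Basis.mk hli hbtop
  have hfin : Finite b := Module.Finite.finite_basis B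
  have : Fintype b := Fintype.ofFinite b
  have hcard : Fintype.card b = Fintype.card S := by
    rw [← Module.finrank_eq_card_basis B, Module.finrank_fintype_fun_eq_card]
  let e : S ≃ b := (Fintype.equivOfCardEq hcard).symm
  have hch : ∀ s, ∃ v, v ∈ V ∧ ι v = (e s : S → ℚ) := by
    intro s
    obtain ⟨v, hv, hve⟩ := hb (e s).2
    exact ⟨v, hv, hve⟩
  choose v hv hve using hch
  have hli2 : LinearIndependent ℚ (fun s => ι (v s)) := by
    have h1 : (fun s => ι (v s)) = (Subtype.val : b → (S → ℚ)) ∘ e := by
      funext s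
      exact hve s
    rw [h1]
    exact hli.comp e e.injective
  refine ⟨v, hv, ?_, ?_⟩
  · have h1 : LinearIndependent ℚ ((Matrix.of v).map (Int.cast : ℤ → ℚ)).row := hli2
    rw [Matrix.linearIndependent_rows_iff_isUnit, Matrix.isUnit_iff_isUnit_det] at h1
    intro h0
    have h2 : ((Matrix.of v).map (Int.cast : ℤ → ℚ)).det = (((Matrix.of v).det : ℤ) : ℚ) := by
      have := RingHom.map_det (Int.castRingHom ℚ) (Matrix.of v)
      simpa using this.symm
    rw [h2, h0, Int.cast_zero] at h1
    exact not_isUnit_zero h1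
  · have h1 : LinearIndependent ℤ (fun s => ι (v s)) := hli2.restrict_scalars' ℤ
    have h2 : (fun s => ι (v s)) = ι.toIntLinearMap ∘ v := rfl
    rw [h2] at h1
    exact LinearIndependent.of_comp _ h1

/-- A generating subset of the lattice `S → ℤ` whose elements have entries of absolute value at most
`M` contains a small generating subset. -/
theorem small_generating {S : Type} [Fintype S] [DecidableEq S] (V : Set (S → ℤ))
    (hV : AddSubgroup.closure V = ⊤) (M : ℕ) (hM : ∀ v ∈ V, ∀ s, |v s| ≤ (M : ℤ)) :
    ∃ T : Finset (S → ℤ), (T : Set (S → ℤ)) ⊆ V ∧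
      T.card ≤ Fintype.card S +
        Nat.log 2 ((Fintype.card S).factorial * M ^ Fintype.card S) ∧
      AddSubgroup.closure (T : Set (S → ℤ)) = ⊤ := by
  obtain ⟨v, hv, hdet, hli⟩ := det_ne_zero_of_generating V hV
  let N : AddSubgroup (S → ℤ) := (Submodule.span ℤ (Set.range v)).toAddSubgroup
  let bN : Module.Basis S ℤ N := Module.Basis.span hli
  have hbN : ∀ s, ((bN s : N) : S → ℤ) = v s := fun s => congrArg Subtype.val (Module.Basis.span_apply hli s)
  have hidx : N.index = ((Matrix.of v).det).natAbs := by
    rw [AddSubgroup.index_eq_natAbs_det (Pi.basisFun ℤ S) N bN]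
    congr 1
    rw [Module.Basis.det_apply, ← Matrix.det_transpose]
    congr 1
    ext i j
    rw [Matrix.transpose_apply, Module.Basis.toMatrix_apply, Pi.basisFun_repr, hbN,
      Matrix.of_apply]
  have hidx0 : N.index ≠ 0 := by
    rw [hidx]
    exact Int.natAbs_ne_zero.2 hdet
  have hidxle : N.index ≤ (Fintype.card S).factorial * M ^ Fintype.card S := by
    have h1 := Matrix.det_le (A := Matrix.of v) (abv := AbsoluteValue.abs) (x := (M : ℤ))
      (fun i j => hM (v i) (hv i) j)
    rw [hidx]
    have h2 : (((Matrix.of v).det.natAbs : ℕ) : ℤ) ≤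
        (((Fintype.card S).factorial * M ^ Fintype.card S : ℕ) : ℤ) := by
      rw [Int.natCast_natAbs]
      push_cast
      simpa using h1
    exact_mod_cast h2
  obtain ⟨T, hT1, hT2, hT3⟩ := chain V hV N.index N hidx0 le_rfl
  refine ⟨univ.image v ∪ T, ?_, ?_, ?_⟩
  · rw [coe_union, coe_image, coe_univ, Set.image_univ]
    exact Set.union_subset (Set.range_subset_iff.2 hv) hT1
  · refine (card_union_le _ _).trans (add_le_add ?_ (hT2.trans (Nat.log_mono_right hidxle)))
    exact card_image_le.trans (by rw [card_univ])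
  · rw [coe_union, coe_image, coe_univ, Set.image_univ, AddSubgroup.closure_union]
    have h3 : N = AddSubgroup.closure (Set.range v) :=
      Submodule.span_int_eq_addSubgroupClosure (Set.range v)
    rw [← h3]
    exact hT3

end Pool.Agent.Q162.CE
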