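import Pool.Agent.Q162.CE.L1
import Pool.Agent.H951R5.AR.Defs

/-!
# Few small elements generate all prime ideals of small norm
-/

set_option autoImplicit false

namespace Pool.Agent.Q162.CE

open NumberField IsDedekindDomain Pool.Agent.H951R5.AR Finset
open scoped Classical nonZeroDivisors

/-- the prime ideals of norm at most `B` -/
def SB (K : Type) [Field K] [NumberField K] (B : ℝ) : Type :=
  {v : HeightOneSpectrum (𝓞 K) // (Ideal.absNorm v.asIdeal : ℝ) ≤ B}

theorem SB_finite (K : Type) [Field K] [NumberField K] (B : ℝ) : Finite (SB K B) := by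
  have h1 := Ideal.finite_setOfPred_absNorm_le (S := 𝓞 K) ⌊B⌋₊
  have h2 : Finite {I : Ideal (𝓞 K) // Ideal.absNorm I ≤ ⌊B⌋₊} := h1
  refine Finite.of_injective (fun v : SB K B =>
    (⟨v.1.asIdeal, Nat.le_floor v.2⟩ : {I : Ideal (𝓞 K) // Ideal.absNorm I ≤ ⌊B⌋₊})) ?_
  intro v w h
  apply Subtype.ext
  apply HeightOneSpectrum.ext
  exact congrArg Subtype.val h

theorem SB_card (K : Type) [Field K] [NumberField K] (h2 : Module.finrank ℚ K = 2) (B : ℝ) :
    Nat.card (SB K B) ≤ 2 * ⌊B⌋₊ := by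
  have := SB_finite K B
  have : Fintype (SB K B) := Fintype.ofFinite _
  have key : ∀ v : SB K B, ∃ p : ℕ, p.Prime ∧ p ≤ ⌊B⌋₊ ∧
      v.1.asIdeal ∈ IsDedekindDomain.primesOverFinset (Ideal.span {(p : ℤ)}) (𝓞 K) := by
    intro v
    have hmax : v.1.asIdeal.IsMaximal := v.1.isMaximal
    obtain ⟨p, n, hn, hmem, hp, hN⟩ := Ideal.exists_prime_and_absNorm_eq_pow v.1.asIdeal
    refine ⟨p, hp, ?_, ?_⟩
    · apply Nat.le_floor
      refine le_trans ?_ v.2
      rw [hN]
      have h3 : p ^ 1 ≤ p ^ n := Nat.pow_le_pow_right hp.pos hn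
      rw [pow_one] at h3
      exact_mod_cast h3
    · have hp0 : (Ideal.span {(p : ℤ)}) ≠ ⊥ := by
        rw [Ne, Ideal.span_singleton_eq_bot]
        exact_mod_cast hp.ne_zero
      have hpm : (Ideal.span {(p : ℤ)}).IsMaximal := by
        have h4 : Prime (p : ℤ) := Nat.prime_iff_prime_int.1 hp
        exact PrincipalIdealRing.isMaximal_of_irreducible h4.irreducible
      rw [IsDedekindDomain.mem_primesOverFinset_iff hp0]
      refine ⟨v.1.isPrime, ⟨?_⟩⟩
      have h5 : Ideal.span {(p : ℤ)} ≤ Ideal.under ℤ v.1.asIdeal := by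
        rw [Ideal.span_singleton_le_iff_mem, Ideal.mem_comap]
        simpa using hmem
      have h6 : Ideal.under ℤ v.1.asIdeal ≠ ⊤ := Ideal.comap_ne_top _ hmax.ne_top
      exact hpm.eq_of_le h6 h5
  choose f hf1 hf2 hf3 using key
  have hfib : ∀ p ∈ (univ.image f), (univ.filter (fun v => f v = p)).card ≤ 2 := by
    intro p hp
    rw [mem_image] at hp
    obtain ⟨v0, -, hv0⟩ := hp
    have hpp : p.Prime := by rw [← hv0]; exact hf1 v0
    have hp0 : (Ideal.span {(p : ℤ)}) ≠ ⊥ := by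
      rw [Ne, Ideal.span_singleton_eq_bot]
      exact_mod_cast hpp.ne_zero
    have hpm : (Ideal.span {(p : ℤ)}).IsMaximal := by
      have h4 : Prime (p : ℤ) := Nat.prime_iff_prime_int.1 hpp
      exact PrincipalIdealRing.isMaximal_of_irreducible h4.irreducible
    have h7 := Ideal.card_primesOverFinset_le_finrank (S := 𝓞 K) ℚ K hp0
    rw [h2] at h7
    refine le_trans ?_ h7
    refine card_le_card_of_injOn (fun v => v.1.asIdeal) ?_ ?_
    · intro v hv
      rw [mem_coe, mem_filter] at hv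
      have := hf3 v
      rw [hv.2] at this
      exact this
    · intro v _ w _ h
      apply Subtype.ext
      exact HeightOneSpectrum.ext h
  have hc := card_le_mul_card_image (s := univ) (f := f) 2 hfib
  rw [Nat.card_eq_fintype_card, ← card_univ]
  refine hc.trans ?_
  refine Nat.mul_le_mul_left 2 ?_
  have h8 : univ.image f ⊆ Icc 1 ⌊B⌋₊ := by
    intro p hp
    rw [mem_image] at hp
    obtain ⟨v, -, rfl⟩ := hp
    rw [mem_Icc]
    exact ⟨(hf1 v).pos, hf2 v⟩
  refine (card_le_card h8).trans ?_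
  rw [Nat.card_Icc]
  omega

section

variable {K : Type} [Field K] [NumberField K]

theorem count_prod_small (B : ℝ) (L : Multiset (Ideal (𝓞 K)))
    (hL : ∀ P ∈ L, P.IsPrime ∧ P ≠ ⊥ ∧ ((Ideal.absNorm P : ℕ) : ℝ) ≤ B)
    (v : HeightOneSpectrum (𝓞 K)) :
    L.prod ≠ ⊥ ∧
    0 ≤ FractionalIdeal.count K v ((L.prod : Ideal (𝓞 K)) : FractionalIdeal (𝓞 K)⁰ K) ∧
    FractionalIdeal.count K v ((L.prod : Ideal (𝓞 K)) : FractionalIdeal (𝓞 K)⁰ K) ≤ L.card ∧
    (¬ ((Ideal.absNorm v.asIdeal : ℕ) : ℝ) ≤ B →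
      FractionalIdeal.count K v ((L.prod : Ideal (𝓞 K)) : FractionalIdeal (𝓞 K)⁰ K) = 0) := by
  induction L using Multiset.induction with
  | empty =>
    have e : (((0 : Multiset (Ideal (𝓞 K))).prod : Ideal (𝓞 K)) : FractionalIdeal (𝓞 K)⁰ K) =
        1 := by
      rw [Multiset.prod_zero, Ideal.one_eq_top, FractionalIdeal.coeIdeal_top]
    rw [e, FractionalIdeal.count_one]
    refine ⟨?_, le_rfl, by simp, fun _ => rfl⟩
    rw [Multiset.prod_zero]
    exact one_ne_zero
  | cons P L ih =>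
    obtain ⟨h1, h2, h3, h4⟩ := ih fun Q hQ => hL Q (Multiset.mem_cons_of_mem hQ)
    obtain ⟨hP1, hP2, hP3⟩ := hL P (Multiset.mem_cons_self P L)
    let w : HeightOneSpectrum (𝓞 K) := ⟨P, hP1, hP2⟩
    have hPne : (P : FractionalIdeal (𝓞 K)⁰ K) ≠ 0 := FractionalIdeal.coeIdeal_ne_zero.2 hP2
    have hLne : ((L.prod : Ideal (𝓞 K)) : FractionalIdeal (𝓞 K)⁰ K) ≠ 0 :=
      FractionalIdeal.coeIdeal_ne_zero.2 h1
    have hc : FractionalIdeal.count K v (P : FractionalIdeal (𝓞 K)⁰ K) =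
        if w = v then 1 else 0 := FractionalIdeal.count_maximal K v w
    rw [Multiset.prod_cons, FractionalIdeal.coeIdeal_mul, FractionalIdeal.count_mul K v hPne hLne,
      hc, Multiset.card_cons]
    refine ⟨mul_ne_zero hP2 h1, ?_, ?_, ?_⟩
    · split_ifs <;> omega
    · push_cast
      split_ifs <;> omega
    · intro hv
      rw [h4 hv, add_zero, if_neg]
      rintro rfl
      exact hv hP3

theorem count_small {B n : ℝ} {A : Ideal (𝓞 K)} (h : SmallProd K B n A)
    (v : HeightOneSpectrum (𝓞 K)) :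
    A ≠ ⊥ ∧ 0 ≤ FractionalIdeal.count K v (A : FractionalIdeal (𝓞 K)⁰ K) ∧
    ((FractionalIdeal.count K v (A : FractionalIdeal (𝓞 K)⁰ K) : ℤ) : ℝ) ≤ n ∧
    (¬ ((Ideal.absNorm v.asIdeal : ℕ) : ℝ) ≤ B →
      FractionalIdeal.count K v (A : FractionalIdeal (𝓞 K)⁰ K) = 0) := by
  obtain ⟨L, hL, hn, rfl⟩ := h
  obtain ⟨h1, h2, h3, h4⟩ := count_prod_small B L hL v
  refine ⟨h1, h2, ?_, h4⟩
  refine le_trans ?_ hn
  exact_mod_cast h3

theorem span_ne_zero (x : Kˣ) : FractionalIdeal.spanSingleton (𝓞 K)⁰ (x : K) ≠ 0 :=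
  FractionalIdeal.spanSingleton_ne_zero_iff.2 x.ne_zero

theorem count_gen {σ τ : K →+* ℝ} {B n : ℝ} {x : Kˣ} (hx : x ∈ Gen K σ τ B n)
    (v : HeightOneSpectrum (𝓞 K)) :
    (((|FractionalIdeal.count K v (FractionalIdeal.spanSingleton (𝓞 K)⁰ (x : K))| : ℤ) : ℝ) ≤
      n) ∧
    (¬ ((Ideal.absNorm v.asIdeal : ℕ) : ℝ) ≤ B →
      FractionalIdeal.count K v (FractionalIdeal.spanSingleton (𝓞 K)⁰ (x : K)) = 0) := by
  obtain ⟨⟨A, A', hA, hA', he⟩, -⟩ := hx
  obtain ⟨a1, a2, a3, a4⟩ := count_small hA v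
  obtain ⟨b1, b2, b3, b4⟩ := count_small hA' v
  have h1 := congrArg (FractionalIdeal.count K v) he
  rw [FractionalIdeal.count_mul K v (span_ne_zero x) (FractionalIdeal.coeIdeal_ne_zero.2 b1)]
    at h1
  obtain ⟨c, hc⟩ : ∃ c, c = FractionalIdeal.count K v
    (FractionalIdeal.spanSingleton (𝓞 K)⁰ (x : K)) := ⟨_, rfl⟩
  rw [← hc] at h1 ⊢
  constructor
  · rw [Int.cast_abs, abs_le]
    have h2 : (c : ℝ) + ((FractionalIdeal.count K v (A' : FractionalIdeal (𝓞 K)⁰ K) : ℤ) : ℝ) =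
        ((FractionalIdeal.count K v (A : FractionalIdeal (𝓞 K)⁰ K) : ℤ) : ℝ) := by
      exact_mod_cast h1
    have a2' : (0 : ℝ) ≤ ((FractionalIdeal.count K v (A : FractionalIdeal (𝓞 K)⁰ K) : ℤ) : ℝ) := by
      exact_mod_cast a2
    have b2' : (0 : ℝ) ≤
        ((FractionalIdeal.count K v (A' : FractionalIdeal (𝓞 K)⁰ K) : ℤ) : ℝ) := by
      exact_mod_cast b2
    constructor <;> linarith
  · intro hv
    rw [a4 hv, b4 hv] at h1
    omega

/-- a fractional ideal is determined by its exponents -/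
theorem ext_count {I J : FractionalIdeal (𝓞 K)⁰ K} (hI : I ≠ 0) (hJ : J ≠ 0)
    (h : ∀ v : HeightOneSpectrum (𝓞 K), FractionalIdeal.count K v I = FractionalIdeal.count K v J) :
    I = J := by
  rw [← FractionalIdeal.finprod_heightOneSpectrum_factorization' K hI,
    ← FractionalIdeal.finprod_heightOneSpectrum_factorization' K hJ]
  exact finprod_congr fun v => by rw [h v]

/-- the exponents of the primes of norm at most `B` in the principal ideal of `x` -/
noncomputable def Phi (K : Type) [Field K] [NumberField K] (B : ℝ) :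
    Kˣ →* Multiplicative (SB K B → ℤ) where
  toFun x := Multiplicative.ofAdd fun s : SB K B =>
    FractionalIdeal.count K s.1 (FractionalIdeal.spanSingleton (𝓞 K)⁰ (x : K))
  map_one' := by
    rw [← ofAdd_zero]
    congr 1
    funext s
    rw [Units.val_one, FractionalIdeal.spanSingleton_one, FractionalIdeal.count_one]
    rfl
  map_mul' x y := by
    rw [← ofAdd_add]
    congr 1
    funext s
    rw [Units.val_mul, ← FractionalIdeal.spanSingleton_mul_spanSingleton,
      FractionalIdeal.count_mul K s.1 (span_ne_zero x) (span_ne_zero y)]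
    rfl

theorem zero_outside {σ τ : K →+* ℝ} {B n : ℝ} {y : Kˣ}
    (hy : y ∈ Subgroup.closure (Gen K σ τ B n)) (v : HeightOneSpectrum (𝓞 K))
    (hv : ¬ ((Ideal.absNorm v.asIdeal : ℕ) : ℝ) ≤ B) :
    FractionalIdeal.count K v (FractionalIdeal.spanSingleton (𝓞 K)⁰ (y : K)) = 0 := by
  induction hy using Subgroup.closure_induction with
  | mem x hx => exact (count_gen hx v).2 hv
  | one => rw [Units.val_one, FractionalIdeal.spanSingleton_one, FractionalIdeal.count_one]
  | mul x y _ _ hx hy =>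
    rw [Units.val_mul, ← FractionalIdeal.spanSingleton_mul_spanSingleton,
      FractionalIdeal.count_mul K v (span_ne_zero x) (span_ne_zero y), hx, hy, add_zero]
  | inv x _ hx =>
    have h1 : FractionalIdeal.spanSingleton (𝓞 K)⁰ ((x⁻¹ : Kˣ) : K) =
        (FractionalIdeal.spanSingleton (𝓞 K)⁰ (x : K))⁻¹ := by
      rw [Units.val_inv_eq_inv_val, FractionalIdeal.spanSingleton_inv]
    rw [h1, FractionalIdeal.count_inv, hx, neg_zero]

/-- If the class number is one and the small elements generate all `B`-units, then few small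
elements generate all prime ideals of norm at most `B`. -/
theorem few_generate (σ τ : K →+* ℝ) (B n : ℝ) (M : ℕ) (hM : n ≤ M)
    (hgen : ∀ u ∈ SUnit K B, u ∈ Subgroup.closure (Gen K σ τ B n))
    (hU : IsPrincipalIdealRing (𝓞 K)) :
    ∃ T : Finset Kˣ, (T : Set Kˣ) ⊆ Gen K σ τ B n ∧
      T.card ≤ Nat.card (SB K B) +
        Nat.log 2 ((Nat.card (SB K B)).factorial * M ^ Nat.card (SB K B)) ∧
      ∀ P : Ideal (𝓞 K), P.IsPrime → P ≠ ⊥ → ((Ideal.absNorm P : ℕ) : ℝ) ≤ B →
        ∃ x ∈ Subgroup.closure (T : Set Kˣ),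
          FractionalIdeal.spanSingleton (𝓞 K)⁰ ((x : Kˣ) : K) =
            (P : FractionalIdeal (𝓞 K)⁰ K) := by
  have := SB_finite K B
  have : Fintype (SB K B) := Fintype.ofFinite _
  obtain ⟨V, hVd⟩ : ∃ V : Set (SB K B → ℤ), V = (fun x : Kˣ => (Phi K B x).toAdd) ''
    (Gen K σ τ B n) := ⟨_, rfl⟩
  -- the image of the closure
  have hcl : ∀ (W : Set Kˣ) (y : Kˣ), y ∈ Subgroup.closure W →
      (Phi K B y).toAdd ∈ AddSubgroup.closure ((fun x : Kˣ => (Phi K B x).toAdd) '' W) := by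
    intro W y hy
    induction hy using Subgroup.closure_induction with
    | mem x hx => exact AddSubgroup.subset_closure ⟨x, hx, rfl⟩
    | one => rw [map_one]; exact AddSubgroup.zero_mem _
    | mul x y _ _ hx hy => rw [map_mul]; exact AddSubgroup.add_mem _ hx hy
    | inv x _ hx => rw [map_inv]; exact AddSubgroup.neg_mem _ hx
  have hcl2 : ∀ (W : Set Kˣ) (f : SB K B → ℤ),
      f ∈ AddSubgroup.closure ((fun x : Kˣ => (Phi K B x).toAdd) '' W) →
      ∃ y ∈ Subgroup.closure W, (Phi K B y).toAdd = f := by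
    intro W f hf
    induction hf using AddSubgroup.closure_induction with
    | mem x hx =>
      obtain ⟨y, hy, rfl⟩ := hx
      exact ⟨y, Subgroup.subset_closure hy, rfl⟩
    | zero => exact ⟨1, Subgroup.one_mem _, by rw [map_one]; rfl⟩
    | add f g _ _ hf hg =>
      obtain ⟨y, hy, rfl⟩ := hf
      obtain ⟨z, hz, rfl⟩ := hg
      exact ⟨y * z, Subgroup.mul_mem _ hy hz, by rw [map_mul]; rfl⟩
    | neg f _ hf =>
      obtain ⟨y, hy, rfl⟩ := hf
      exact ⟨y⁻¹, Subgroup.inv_mem _ hy, by rw [map_inv]; rfl⟩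
  -- the unit vectors
  have hunit : ∀ (P : Ideal (𝓞 K)) (hP1 : P.IsPrime) (hP2 : P ≠ ⊥)
      (hP3 : ((Ideal.absNorm P : ℕ) : ℝ) ≤ B),
      ∃ u ∈ Subgroup.closure (Gen K σ τ B n),
        FractionalIdeal.spanSingleton (𝓞 K)⁰ ((u : Kˣ) : K) =
          (P : FractionalIdeal (𝓞 K)⁰ K) := by
    intro P hP1 hP2 hP3
    obtain ⟨π, hπ⟩ := (IsPrincipalIdealRing.principal P).principal
    have hπ' : P = Ideal.span {π} := hπ
    have hπ0 : π ≠ 0 := by
      rintro rfl
      apply hP2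
      rw [hπ', Ideal.span_singleton_eq_bot]
    have hπK : (algebraMap (𝓞 K) K π) ≠ 0 := by
      rw [Ne, FaithfulSMul.algebraMap_eq_zero_iff]
      exact hπ0
    have e1 : FractionalIdeal.spanSingleton (𝓞 K)⁰ ((Units.mk0 _ hπK : Kˣ) : K) =
        (P : FractionalIdeal (𝓞 K)⁰ K) := by
      rw [Units.val_mk0, hπ', FractionalIdeal.coeIdeal_span_singleton]
    refine ⟨Units.mk0 _ hπK, hgen _ ?_, e1⟩
    refine ⟨1, P, ⊤, ?_, ?_, ?_⟩
    · refine ⟨{P}, ?_, ?_, ?_⟩
      · intro Q hQ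
        rw [Multiset.mem_singleton] at hQ
        rw [hQ]
        exact ⟨hP1, hP2, hP3⟩
      · simp
      · simp
    · refine ⟨0, ?_, ?_, ?_⟩
      · intro Q hQ
        exact absurd hQ (Multiset.notMem_zero Q)
      · simp
      · rw [Multiset.prod_zero, Ideal.one_eq_top]
    · rw [FractionalIdeal.coeIdeal_top, mul_one]
      exact e1
  have hVtop : AddSubgroup.closure V = ⊤ := by
    rw [eq_top_iff]
    intro f _
    have hsum : f = ∑ s : SB K B, f s • (Pi.single s (1 : ℤ) : SB K B → ℤ) := by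
      funext t
      rw [Finset.sum_apply, Finset.sum_eq_single t]
      · simp
      · intro s _ hs
        simp [Pi.single_eq_of_ne hs.symm]
      · intro h
        exact absurd (mem_univ t) h
    rw [hsum]
    refine AddSubgroup.sum_mem _ fun s _ => AddSubgroup.zsmul_mem _ ?_ _
    obtain ⟨u, hu1, hu2⟩ := hunit s.1.asIdeal s.1.isPrime s.1.ne_bot s.2
    have h1 := hcl _ u hu1
    have h2 : (Phi K B u).toAdd = Pi.single s (1 : ℤ) := by
      funext t
      show FractionalIdeal.count K t.1 (FractionalIdeal.spanSingleton (𝓞 K)⁰ (u : K)) = _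
      rw [hu2, FractionalIdeal.count_maximal K t.1 s.1]
      by_cases h : t = s
      · rw [h, if_pos rfl, Pi.single_eq_same]
      · rw [Pi.single_eq_of_ne h, if_neg]
        intro h3
        exact h (Subtype.ext h3.symm)
    rw [h2, ← hVd] at h1
    exact h1
  have hVM : ∀ f ∈ V, ∀ s, |f s| ≤ (M : ℤ) := by
    intro f hf s
    rw [hVd] at hf
    obtain ⟨x, hx, rfl⟩ := hf
    have h1 := (count_gen hx s.1).1.trans hM
    exact_mod_cast h1
  obtain ⟨T, hT1, hT2, hT3⟩ := small_generating V hVtop M hVM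
  have hch : ∀ f : SB K B → ℤ, ∃ x : Kˣ, f ∈ T → x ∈ Gen K σ τ B n ∧ (Phi K B x).toAdd = f := by
    intro f
    by_cases hf : f ∈ T
    · have h1 := hT1 hf
      rw [hVd] at h1
      obtain ⟨x, hx, hxf⟩ := h1
      exact ⟨x, fun _ => ⟨hx, hxf⟩⟩
    · exact ⟨1, fun h => absurd h hf⟩
  choose g hg using hch
  refine ⟨T.image g, ?_, ?_, ?_⟩
  · intro x hx
    rw [mem_coe, mem_image] at hx
    obtain ⟨f, hf, rfl⟩ := hx
    exact (hg f hf).1
  · refine card_image_le.trans ?_
    rw [Nat.card_eq_fintype_card]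
    exact hT2
  · intro P hP1 hP2 hP3
    let w : HeightOneSpectrum (𝓞 K) := ⟨P, hP1, hP2⟩
    have himg : (fun x : Kˣ => (Phi K B x).toAdd) '' ((T.image g : Finset Kˣ) : Set Kˣ) =
        (T : Set (SB K B → ℤ)) := by
      ext f
      constructor
      · rintro ⟨x, hx, rfl⟩
        rw [mem_coe, mem_image] at hx
        obtain ⟨f, hf, rfl⟩ := hx
        simp only [(hg f hf).2]
        exact hf
      · intro hf
        refine ⟨g f, ?_, (hg f hf).2⟩
        rw [mem_coe, mem_image]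
        exact ⟨f, hf, rfl⟩
    obtain ⟨sw, hsw⟩ : ∃ s : SB K B, s.1 = w := ⟨⟨w, hP3⟩, rfl⟩
    have hmem : (Pi.single sw (1 : ℤ) : SB K B → ℤ) ∈
        AddSubgroup.closure ((fun x : Kˣ => (Phi K B x).toAdd) ''
          ((T.image g : Finset Kˣ) : Set Kˣ)) := by
      rw [himg, hT3]
      exact AddSubgroup.mem_top _
    obtain ⟨y, hy1, hy2⟩ := hcl2 _ _ hmem
    refine ⟨y, hy1, ?_⟩
    have hygen : y ∈ Subgroup.closure (Gen K σ τ B n) := by
      refine Subgroup.closure_mono ?_ hy1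
      intro x hx
      rw [mem_coe, mem_image] at hx
      obtain ⟨f, hf, rfl⟩ := hx
      exact (hg f hf).1
    refine ext_count (span_ne_zero y) (FractionalIdeal.coeIdeal_ne_zero.2 hP2) fun v => ?_
    have hcw := FractionalIdeal.count_maximal K v w
    rw [show (P : FractionalIdeal (𝓞 K)⁰ K) = (w.asIdeal : FractionalIdeal (𝓞 K)⁰ K) from rfl,
      hcw]
    by_cases hv : ((Ideal.absNorm v.asIdeal : ℕ) : ℝ) ≤ B
    · obtain ⟨sv, hsv⟩ : ∃ s : SB K B, s.1 = v := ⟨⟨v, hv⟩, rfl⟩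
      have h1 := congrFun hy2 sv
      have h2 : FractionalIdeal.count K sv.1 (FractionalIdeal.spanSingleton (𝓞 K)⁰ (y : K)) =
          (Pi.single sw (1 : ℤ) : SB K B → ℤ) sv := h1
      rw [hsv] at h2
      rw [h2]
      by_cases h : w = v
      · have h3 : sw = sv := Subtype.ext (by rw [hsw, hsv, h])
        rw [if_pos h, h3, Pi.single_eq_same]
      · rw [if_neg h, Pi.single_eq_of_ne]
        intro h3
        apply h
        rw [← hsw, ← hsv, h3]
    · rw [zero_outside hygen v hv, if_neg]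
      rintro rfl
      exact hv hP3

end

end Pool.Agent.Q162.CE
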