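import Pool.Agent.Q162.CE.L2

/-!
# The size of the small elements
-/

set_option autoImplicit false

namespace Pool.Agent.Q162.CE

open NumberField IsDedekindDomain Pool.Agent.H951R5.AR Finset
open scoped Classical nonZeroDivisors

variable {K : Type} [Field K] [NumberField K]

theorem norm_two (h2 : Module.finrank ℚ K = 2) (σ τ : K →+* ℝ) (h : σ ≠ τ) (x : K) :
    ((Algebra.norm ℚ x : ℚ) : ℝ) = σ x * τ x := by
  have hfin : FiniteDimensional ℚ K := inferInstance
  let f : (K →+* ℝ) → (K →ₐ[ℚ] ℂ) := fun ρ => ((Complex.ofRealHom).comp ρ).toRatAlgHom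
  have hf : ∀ ρ y, f ρ y = ((ρ y : ℝ) : ℂ) := fun _ _ => rfl
  have hinj : f σ ≠ f τ := by
    intro h4
    apply h
    ext y
    have h1 := congrArg (fun φ : K →ₐ[ℚ] ℂ => φ y) h4
    simp only [hf] at h1
    exact_mod_cast h1
  have hcard : Fintype.card (K →ₐ[ℚ] ℂ) = 2 := by
    rw [AlgHom.card, h2]
  have huniv : (univ : Finset (K →ₐ[ℚ] ℂ)) = {f σ, f τ} := by
    symm
    apply eq_of_subset_of_card_le (subset_univ _)
    rw [card_univ, hcard, card_pair hinj]
  have h3 := Algebra.norm_eq_prod_embeddings ℚ ℂ x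
  rw [huniv, prod_pair hinj, hf, hf] at h3
  have h4 : (((Algebra.norm ℚ x : ℚ) : ℝ) : ℂ) = ((σ x * τ x : ℝ) : ℂ) := by
    rw [Complex.ofReal_mul, ← h3]
    simp
  exact_mod_cast h4

theorem count_prod_small' {B n : ℝ} {A : Ideal (𝓞 K)} (h : SmallProd K B n A) : A ≠ ⊥ := by
  obtain ⟨L, hL, -, rfl⟩ := h
  induction L using Multiset.induction with
  | empty =>
    rw [Multiset.prod_zero]
    exact one_ne_zero
  | cons P L ih =>
    rw [Multiset.prod_cons]
    exact mul_ne_zero (hL P (Multiset.mem_cons_self P L)).2.1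
      (ih fun Q hQ => hL Q (Multiset.mem_cons_of_mem hQ))

theorem norm_small {B n : ℝ} (hB : 1 ≤ B) {A : Ideal (𝓞 K)} (h : SmallProd K B n A) :
    ((Ideal.absNorm A : ℕ) : ℝ) ≤ B ^ n := by
  obtain ⟨L, hL, hn, rfl⟩ := h
  have h1 : ((Ideal.absNorm L.prod : ℕ) : ℝ) ≤ B ^ L.card := by
    clear hn
    induction L using Multiset.induction with
    | empty =>
      rw [Multiset.prod_zero, Multiset.card_zero, pow_zero, map_one, Nat.cast_one]
    | cons P L ih =>
      have h1 := ih fun Q hQ => hL Q (Multiset.mem_cons_of_mem hQ)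
      have h2 := (hL P (Multiset.mem_cons_self P L)).2.2
      rw [Multiset.prod_cons, map_mul, Multiset.card_cons, pow_succ']
      push_cast
      exact mul_le_mul h2 h1 (by positivity) (by linarith)
  refine h1.trans ?_
  rw [← Real.rpow_natCast]
  exact Real.rpow_le_rpow_of_exponent_le hB hn

theorem small_size (h2 : Module.finrank ℚ K = 2) (σ τ : K →+* ℝ) (hst : σ ≠ τ) {B n : ℝ}
    (hB : 1 ≤ B) {x : Kˣ} (hx : x ∈ Gen K σ τ B n) :
    ∃ (m : ℕ) (z : 𝓞 K), 0 < m ∧ (m : ℝ) ≤ B ^ n ∧ (m : K) * (x : K) = (z : K) ∧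
      |σ (z : K)| ≤ 13 * B ^ n ∧ |τ (z : K)| ≤ 13 * B ^ n := by
  obtain ⟨⟨A, A', hA, hA', he⟩, hlog⟩ := hx
  have hA0 : A ≠ ⊥ := (count_prod_small' hA)
  have hA'0 : A' ≠ ⊥ := (count_prod_small' hA')
  obtain ⟨m, hm⟩ : ∃ m : ℕ, m = Ideal.absNorm A' := ⟨_, rfl⟩
  have hm0 : 0 < m := by
    rw [hm]
    exact Nat.pos_of_ne_zero (by rwa [Ne, Ideal.absNorm_eq_zero_iff])
  have hmr : (0 : ℝ) < m := by exact_mod_cast hm0
  have hmem : ((m : 𝓞 K)) ∈ A' := by
    rw [hm]
    exact Ideal.absNorm_mem A'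
  have h1 : (x : K) * (m : K) ∈ (A : FractionalIdeal (𝓞 K)⁰ K) := by
    rw [← he]
    refine FractionalIdeal.mul_mem_mul (FractionalIdeal.mem_spanSingleton_self _ _) ?_
    have := FractionalIdeal.mem_coeIdeal_of_mem (𝓞 K)⁰ (P := K) hmem
    simpa using this
  obtain ⟨z, hz, hzx⟩ := (FractionalIdeal.mem_coeIdeal (𝓞 K)⁰).1 h1
  have hzx' : (m : K) * (x : K) = (z : K) := by
    rw [mul_comm]
    exact hzx.symm
  -- norms
  have hN : |σ (x : K) * τ (x : K)| * (m : ℝ) = ((Ideal.absNorm A : ℕ) : ℝ) := by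
    have h3 := congrArg FractionalIdeal.absNorm he
    rw [map_mul, FractionalIdeal.absNorm_span_singleton, FractionalIdeal.coeIdeal_absNorm,
      FractionalIdeal.coeIdeal_absNorm] at h3
    have h4 : ((|(Algebra.norm ℚ) (x : K)| * (Ideal.absNorm A' : ℚ) : ℚ) : ℝ) =
        ((Ideal.absNorm A : ℚ) : ℝ) := by
      rw [h3]
    push_cast at h4
    rw [norm_two h2 σ τ hst] at h4
    rw [hm]
    exact h4
  have hmB : (m : ℝ) ≤ B ^ n := by rw [hm]; exact norm_small hB hA'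
  have hAB := norm_small hB hA
  have hBn : 0 < B ^ n := by positivity
  have hσ0 : σ (x : K) ≠ 0 := by rw [map_ne_zero]; exact x.ne_zero
  have hτ0 : τ (x : K) ≠ 0 := by rw [map_ne_zero]; exact x.ne_zero
  have hexp : Real.exp 5 ≤ 169 := by
    have h5 : Real.exp 5 = Real.exp 1 ^ 5 := by
      rw [← Real.exp_nat_mul]
      norm_num
    rw [h5]
    have h6 := Real.exp_one_lt_d9
    have h7 : Real.exp 1 ^ 5 ≤ (2.7182818286 : ℝ) ^ 5 :=
      pow_le_pow_left₀ (Real.exp_pos 1).le h6.le 5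
    refine h7.trans ?_
    norm_num
  have key : ∀ u w : ℝ, u ≠ 0 → w ≠ 0 → Real.log |u / w| ≤ 5 →
      |u * w| * (m : ℝ) = ((Ideal.absNorm A : ℕ) : ℝ) → |(m : ℝ) * u| ≤ 13 * B ^ n := by
    intro u w hu hw hl huw
    have h8 : |u / w| ≤ 169 := by
      refine le_trans ?_ hexp
      rw [← Real.exp_log (abs_pos.2 (div_ne_zero hu hw))]
      exact Real.exp_le_exp.2 hl
    have h9 : |(m : ℝ) * u| ^ 2 ≤ (13 * B ^ n) ^ 2 := by
      have e1 : |(m : ℝ) * u| ^ 2 = (m : ℝ) * (|u * w| * m) * |u / w| := by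
        rw [abs_mul, abs_mul, abs_div, abs_of_pos hmr]
        have : |w| ≠ 0 := abs_ne_zero.2 hw
        field_simp
      rw [e1, huw]
      calc (m : ℝ) * ((Ideal.absNorm A : ℕ) : ℝ) * |u / w| ≤ B ^ n * B ^ n * 169 := by
            refine mul_le_mul (mul_le_mul hmB hAB (by positivity) hBn.le) h8 (abs_nonneg _)
              (by positivity)
        _ = (13 * B ^ n) ^ 2 := by ring
    exact le_of_sq_le_sq h9 (by positivity)
  refine ⟨m, z, hm0, hmB, hzx', ?_, ?_⟩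
  · rw [← hzx', map_mul, map_natCast]
    refine key _ _ hσ0 hτ0 ?_ hN
    exact (le_abs_self _).trans hlog
  · rw [← hzx', map_mul, map_natCast]
    refine key _ _ hτ0 hσ0 ?_ (by rw [mul_comm (τ _)]; exact hN)
    have e : |τ (x : K) / σ (x : K)| = |σ (x : K) / τ (x : K)|⁻¹ := by
      rw [← abs_inv, inv_div]
    rw [e, Real.log_inv]
    exact (neg_le_abs _).trans hlog

end Pool.Agent.Q162.CE
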