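import Mathlib

/-!
# The sizes for large radicands
-/

set_option autoImplicit false

namespace Pool.Agent.Q162.CE

open Filter Finset

theorem size_large (a : ℝ) (ha : 0 < a) : ∃ d0 : ℕ, ∀ d : ℕ, d0 ≤ d →
    1 ≤ (Real.log d) ^ a ∧
    13 * ((Real.log d) ^ a) ^ (1 + Real.log d / Real.log (Real.log d)) ≤ (d : ℝ) ^ (a + 1) := by
  have ht : Tendsto (fun X : ℕ => Real.log (X : ℝ)) atTop atTop :=
    Real.tendsto_log_atTop.comp tendsto_natCast_atTop_atTop
  have h1 : ∀ᶠ L : ℝ in atTop, 3 ≤ L ∧ 13 * L ^ a ≤ Real.exp L := by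
    have h2 := (isLittleO_rpow_exp_atTop a).bound (by norm_num : (0 : ℝ) < 1 / 13)
    filter_upwards [h2, eventually_ge_atTop (3 : ℝ)] with L h3 h4
    refine ⟨h4, ?_⟩
    rw [Real.norm_eq_abs, Real.norm_eq_abs, abs_of_nonneg (by positivity),
      abs_of_pos (Real.exp_pos L)] at h3
    linarith
  obtain ⟨d0, hd0⟩ := Filter.eventually_atTop.1 (ht.eventually h1)
  refine ⟨max d0 2, fun d hd => ?_⟩
  obtain ⟨h3, h4⟩ := hd0 d ((le_max_left _ _).trans hd)
  have hd2 : (2 : ℝ) ≤ d := by exact_mod_cast (le_max_right _ _).trans hd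
  obtain ⟨L, hL⟩ : ∃ L, L = Real.log (d : ℝ) := ⟨_, rfl⟩
  rw [← hL] at h3 h4 ⊢
  have hdL : (d : ℝ) = Real.exp L := by rw [hL, Real.exp_log (by linarith)]
  have hl : 0 < Real.log L := Real.log_pos (by linarith)
  have hL0 : 0 < L := by linarith
  refine ⟨Real.one_le_rpow (by linarith) ha.le, ?_⟩
  have e1 : (L ^ a) ^ (1 + L / Real.log L) = L ^ a * Real.exp (a * L) := by
    rw [← Real.rpow_mul hL0.le, mul_add, mul_one, Real.rpow_add hL0]
    congr 1
    rw [Real.rpow_def_of_pos hL0]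
    congr 1
    field_simp
  rw [e1, hdL, ← Real.exp_mul]
  calc 13 * (L ^ a * Real.exp (a * L)) = (13 * L ^ a) * Real.exp (a * L) := by ring
    _ ≤ Real.exp L * Real.exp (a * L) := mul_le_mul_of_nonneg_right h4 (Real.exp_pos _).le
    _ = Real.exp (L * (a + 1)) := by rw [← Real.exp_add]; congr 1; ring

theorem card_large (a : ℝ) (ha : 2 < a) : ∃ d0 : ℕ, ∀ d : ℕ, d0 ≤ d → ∀ r : ℕ,
    r ≤ 2 * ⌊(Real.log d) ^ a⌋₊ →
    ((r + Nat.log 2 (r.factorial *
      ⌈1 + Real.log d / Real.log (Real.log d)⌉₊ ^ r) : ℕ) : ℝ) ≤ (Real.log d) ^ (a + 1) := by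
  have ht : Tendsto (fun X : ℕ => Real.log (X : ℝ)) atTop atTop :=
    Real.tendsto_log_atTop.comp tendsto_natCast_atTop_atTop
  have h1 : ∀ᶠ L : ℝ in atTop, 4 ≤ L ∧ 2 + 4 * (a + 3) * Real.log L ≤ L := by
    have h2 := Real.isLittleO_log_id_atTop.bound (show (0 : ℝ) < 1 / (8 * (a + 3)) by positivity)
    filter_upwards [h2, eventually_ge_atTop (4 : ℝ)] with L h3 h4
    refine ⟨h4, ?_⟩
    have hl : 0 < Real.log L := Real.log_pos (by linarith)
    rw [Real.norm_eq_abs, abs_of_pos hl, id, Real.norm_eq_abs, abs_of_pos (by linarith : (0:ℝ) < L)]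
      at h3
    have h5 : 4 * (a + 3) * Real.log L ≤ 4 * (a + 3) * (1 / (8 * (a + 3)) * L) :=
      mul_le_mul_of_nonneg_left h3 (by positivity)
    have h6 : 4 * (a + 3) * (1 / (8 * (a + 3)) * L) = L / 2 := by
      field_simp
      norm_num
    linarith
  obtain ⟨d0, hd0⟩ := Filter.eventually_atTop.1 (ht.eventually h1)
  refine ⟨max d0 2, fun d hd r hr => ?_⟩
  obtain ⟨h3, h4⟩ := hd0 d ((le_max_left _ _).trans hd)
  obtain ⟨L, hL⟩ : ∃ L, L = Real.log (d : ℝ) := ⟨_, rfl⟩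
  rw [← hL] at h3 h4 hr ⊢
  have hL0 : 0 < L := by linarith
  have hl1 : 1 ≤ Real.log L := by
    rw [Real.le_log_iff_exp_le hL0]
    have := Real.exp_one_lt_d9
    linarith
  have hLa : 0 < L ^ a := by positivity
  have hrL : (r : ℝ) ≤ 2 * L ^ a := by
    have h5 : (r : ℝ) ≤ 2 * (⌊L ^ a⌋₊ : ℝ) := by exact_mod_cast hr
    have h6 := Nat.floor_le hLa.le
    linarith
  obtain ⟨M, hM⟩ : ∃ M : ℕ, M = ⌈1 + L / Real.log L⌉₊ := ⟨_, rfl⟩
  rw [← hM]
  have hn0 : 0 ≤ 1 + L / Real.log L := by positivity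
  have hM1 : 1 ≤ M := by
    rw [hM, Nat.one_le_ceil_iff]
    positivity
  have hML : (M : ℝ) ≤ L + 2 := by
    have h7 := (Nat.ceil_lt_add_one hn0).le
    rw [← hM] at h7
    have h8 : L / Real.log L ≤ L := div_le_self hL0.le hl1
    linarith
  rcases Nat.eq_zero_or_pos r with rfl | hr0
  · simp only [Nat.factorial_zero, pow_zero, mul_one, Nat.log_one_right, add_zero, Nat.cast_zero]
    positivity
  have hr1 : (1 : ℝ) ≤ r := by exact_mod_cast hr0
  have hMr : (1 : ℝ) ≤ M := by exact_mod_cast hM1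
  have hle : r.factorial * M ^ r ≤ (r * M) ^ r := by
    rw [mul_pow]
    exact Nat.mul_le_mul_right _ (Nat.factorial_le_pow r)
  have hlog1 : ((Nat.log 2 (r.factorial * M ^ r) : ℕ) : ℝ) ≤
      r * (Real.log (r * M) / Real.log 2) := by
    have h9 : Nat.log 2 (r.factorial * M ^ r) ≤ Nat.log 2 ((r * M) ^ r) := Nat.log_mono_right hle
    have h10 : ((Nat.log 2 ((r * M) ^ r) : ℕ) : ℝ) ≤ Real.logb 2 (((r * M) ^ r : ℕ) : ℝ) := by
      have := Real.natLog_le_logb ((r * M) ^ r) 2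
      exact_mod_cast this
    have h11 : Real.logb 2 (((r * M) ^ r : ℕ) : ℝ) = r * (Real.log (r * M) / Real.log 2) := by
      push_cast
      rw [Real.logb, Real.log_pow]
      ring
    rw [← h11]
    exact le_trans (by exact_mod_cast h9) h10
  have hlog2 : Real.log (r * M) ≤ (a + 3) * Real.log L := by
    have h12 : (r : ℝ) * M ≤ L ^ (a + 3) := by
      calc (r : ℝ) * M ≤ (2 * L ^ a) * (L + 2) := mul_le_mul hrL hML (by positivity) (by positivity)
        _ ≤ L ^ a * L ^ (3 : ℝ) := by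
            have h13 : L ^ (3 : ℝ) = L * L * L := by
              rw [show (3 : ℝ) = ((3 : ℕ) : ℝ) by norm_num, Real.rpow_natCast]
              ring
            rw [h13]
            have h14 : 2 * (L + 2) ≤ L * L * L := by nlinarith
            nlinarith
        _ = L ^ (a + 3) := by rw [← Real.rpow_add hL0]
    have h15 := Real.log_le_log (by positivity) h12
    rwa [Real.log_rpow hL0] at h15
  have hln2 : (1 / 2 : ℝ) ≤ Real.log 2 := by
    have := Real.log_two_gt_d9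
    linarith
  have hlog3 : Real.log (r * M) / Real.log 2 ≤ 2 * ((a + 3) * Real.log L) := by
    rw [div_le_iff₀ (by linarith)]
    have h16 : 0 ≤ (a + 3) * Real.log L := by positivity
    nlinarith
  have hLa1 : L ^ (a + 1) = L ^ a * L := Real.rpow_add_one hL0.ne' a
  push_cast
  calc (r : ℝ) + (Nat.log 2 (r.factorial * M ^ r) : ℝ) ≤
      r + r * (Real.log (r * M) / Real.log 2) := by linarith
    _ ≤ r + r * (2 * ((a + 3) * Real.log L)) := by
        have := mul_le_mul_of_nonneg_left hlog3 (by positivity : (0:ℝ) ≤ r)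
        linarith
    _ = r * (1 + 2 * (a + 3) * Real.log L) := by ring
    _ ≤ (2 * L ^ a) * (1 + 2 * (a + 3) * Real.log L) := by
        refine mul_le_mul_of_nonneg_right hrL ?_
        positivity
    _ = L ^ a * (2 + 4 * (a + 3) * Real.log L) := by ring
    _ ≤ L ^ a * L := mul_le_mul_of_nonneg_left h4 hLa.le
    _ = L ^ (a + 1) := hLa1.symm

end Pool.Agent.Q162.CE
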